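import Pool.Agent.N522.PW.Main

/-!
# `P = W` depends only on the fundamental group, and reduces to minimal surfaces
-/

open Pool.Agent.N522.PW

/-- (i) Q1 and Q2 for `(X, G)` and `(Y, G)` are equivalent if `X` and `Y` are linked by morphisms
inducing isomorphisms of fundamental groups. (ii) Q1, resp. Q2, for all `X` and a given `G` is
equivalent to Q1, resp. Q2, for all minimal surfaces and `G`. (iii) If both are known for all curves
and a group `G`, they hold for `G` and all varieties linked to a curve. -/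
theorem Pool.Agent.Results.MP_65ad7c_ag.FundamentalGroupInvariance.result
    (T : Theory) (hT : Facts T) (G : T.Grp) :
    (∀ X Y : T.Var, Linked T X Y → (Q1 T X G ↔ Q1 T Y G) ∧ (Q2 T X G ↔ Q2 T Y G)) ∧
    ((∀ X : T.Var, Q1 T X G) ↔ ∀ X : T.Var, T.dim X = 2 → T.Minimal X → Q1 T X G) ∧
    ((∀ X : T.Var, Q2 T X G) ↔ ∀ X : T.Var, T.dim X = 2 → T.Minimal X → Q2 T X G) ∧
    ((∀ C : T.Var, T.dim C = 1 → Q1 T C G ∧ Q2 T C G) →
      ∀ X C : T.Var, T.dim C = 1 → Linked T X C → Q1 T X G ∧ Q2 T X G) := by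
  refine ⟨fun X Y h => linked_iff hT h G, ⟨fun h X _ _ => h X, ?_⟩, ⟨fun h X _ _ => h X, ?_⟩, ?_⟩
  · intro h X
    obtain ⟨Z, h1, h2, h3⟩ := exists_minimal hT X
    exact (linked_iff hT h3 G).1.mp (h Z h1 h2)
  · intro h X
    obtain ⟨Z, h1, h2, h3⟩ := exists_minimal hT X
    exact (linked_iff hT h3 G).2.mp (h Z h1 h2)
  · intro h X C hC hl
    exact ⟨(linked_iff hT hl G).1.mpr (h C hC).1, (linked_iff hT hl G).2.mpr (h C hC).2⟩
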